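import Pool.Agent.helper84.VQ.Spec4a

/-!
# Row `GL4` (MP_07c750_an, project VQ, block 4a): the unstable cone is invariant
-/

set_option autoImplicit false

open scoped MatrixGroups ContDiff Topology UpperHalfPlane ComplexConjugate ENNReal
open UpperHalfPlane MeasureTheory Filter Set

namespace Pool.Agent.VQ

open Pool.Agent.RS
open Pool.Agent.VQE (nm)

section GL4aux

lemma GL4_exp : Real.exp (11 / 5) ≤ 10 ∧ Real.exp 2 ≤ 15 / 2 := by
  have h1 : Real.exp 1 < 2.7182818286 := Real.exp_one_lt_d9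
  have h2 : Real.exp 2 = Real.exp 1 * Real.exp 1 := by rw [← Real.exp_add]; norm_num
  have h0 : 0 < Real.exp 1 := Real.exp_pos _
  have h3 : Real.exp 2 ≤ 7.4 := by rw [h2]; nlinarith
  have h4 : Real.exp (11 / 5) = Real.exp 2 * Real.exp (1 / 5) := by rw [← Real.exp_add]; norm_num
  have h5 : Real.exp (1 / 5) ≤ 5 / 4 := by
    have h6 := Real.add_one_le_exp (-(1 / 5) : ℝ)
    have h7 : Real.exp (1 / 5) * Real.exp (-(1 / 5)) = 1 := by rw [← Real.exp_add]; norm_num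
    have h8 : 0 < Real.exp (1 / 5) := Real.exp_pos _
    nlinarith
  have h9 : 0 < Real.exp (1 / 5) := Real.exp_pos _
  refine ⟨?_, by linarith⟩
  rw [h4]
  nlinarith [Real.exp_pos (2 : ℝ)]

/-- the ODE estimates -/
lemma GL4_ode (a b c e r k r' k' : ℝ → ℝ) (d M t : ℝ) (hd : 0 < d) (hd2 : d ≤ 1 / 30)
    (hr : ∀ s, |r s - 1| ≤ d) (hk : ∀ s, |k s| ≤ d) (hr' : ∀ s, |r' s - 1| ≤ d) (hk' : ∀ s, |k' s| ≤ d)
    (ha : ∀ s, HasDerivAt a ((r' s - r s) / 2 * a s - (k' s * b s + k s * c s) / 2) s)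
    (hb : ∀ s, HasDerivAt b (-((r s + r' s) / 2 * b s) + (k' s * a s - k s * e s) / 2) s)
    (hc : ∀ s, HasDerivAt c ((r s + r' s) / 2 * c s + (k s * a s - k' s * e s) / 2) s)
    (he : ∀ s, HasDerivAt e (-((r' s - r s) / 2 * e s) + (k' s * c s + k s * b s) / 2) s)
    (ha0 : |a 0| ≤ M) (hb0 : |b 0| ≤ M) (hc0 : |c 0| ≤ M) (he0 : |e 0| ≤ M) (ht : 0 ≤ t) (ht2 : t ≤ 2) :
    (|a t| ≤ 10 * M ∧ |b t| ≤ 10 * M ∧ |c t| ≤ 10 * M ∧ |e t| ≤ 10 * M) ∧
    |a t - a 0| ≤ 40 * d * M ∧ |e t - e 0| ≤ 40 * d * M ∧ |c t * Real.exp (-t) - c 0| ≤ 40 * d * M ∧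
    |b t * Real.exp t - b 0| ≤ 300 * d * M := by
  have hM : 0 ≤ M := (abs_nonneg _).trans ha0
  -- products
  have hp : ∀ (x y α N : ℝ), |x| ≤ α → |y| ≤ N → |x * y| ≤ α * N := by
    intro x y α N hx hy
    rw [abs_mul]
    exact mul_le_mul hx hy (abs_nonneg _) ((abs_nonneg _).trans hx)
  have hrr : ∀ s, |(r' s - r s) / 2| ≤ d := by
    intro s
    have h1 := abs_le.mp (hr s)
    have h2 := abs_le.mp (hr' s)
    rw [abs_le]
    constructor <;> linarith [h1.1, h1.2, h2.1, h2.2]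
  have hr1 : ∀ s, |(r s + r' s) / 2 - 1| ≤ d := by
    intro s
    have h1 := abs_le.mp (hr s)
    have h2 := abs_le.mp (hr' s)
    rw [abs_le]
    constructor <;> linarith [h1.1, h1.2, h2.1, h2.2]
  -- bounds of the right hand sides by the sup of the entries
  have rhs : ∀ (s N : ℝ), |a s| ≤ N → |b s| ≤ N → |c s| ≤ N → |e s| ≤ N →
      |(r' s - r s) / 2 * a s - (k' s * b s + k s * c s) / 2| ≤ 2 * d * N ∧
      |-((r s + r' s) / 2 * b s) + (k' s * a s - k s * e s) / 2 + b s| ≤ 2 * d * N ∧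
      |(r s + r' s) / 2 * c s + (k s * a s - k' s * e s) / 2 - c s| ≤ 2 * d * N ∧
      |-((r' s - r s) / 2 * e s) + (k' s * c s + k s * b s) / 2| ≤ 2 * d * N := by
    intro s N h1 h2 h3 h4
    have e1 := abs_le.mp (hp _ _ _ _ (hrr s) h1)
    have e2 := abs_le.mp (hp _ _ _ _ (hk' s) h2)
    have e3 := abs_le.mp (hp _ _ _ _ (hk s) h3)
    have e4 := abs_le.mp (hp _ _ _ _ (hr1 s) h2)
    have e5 := abs_le.mp (hp _ _ _ _ (hk' s) h1)
    have e6 := abs_le.mp (hp _ _ _ _ (hk s) h4)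
    have e7 := abs_le.mp (hp _ _ _ _ (hr1 s) h3)
    have e8 := abs_le.mp (hp _ _ _ _ (hk s) h1)
    have e9 := abs_le.mp (hp _ _ _ _ (hk' s) h4)
    have e10 := abs_le.mp (hp _ _ _ _ (hrr s) h4)
    have e11 := abs_le.mp (hp _ _ _ _ (hk' s) h3)
    have e12 := abs_le.mp (hp _ _ _ _ (hk s) h2)
    refine ⟨?_, ?_, ?_, ?_⟩
    · rw [abs_le]
      constructor <;> linarith [e1.1, e1.2, e2.1, e2.2, e3.1, e3.2]
    · have h : -((r s + r' s) / 2 * b s) + (k' s * a s - k s * e s) / 2 + b s =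
          -(((r s + r' s) / 2 - 1) * b s) + (k' s * a s - k s * e s) / 2 := by ring
      rw [h, abs_le]
      constructor <;> linarith [e4.1, e4.2, e5.1, e5.2, e6.1, e6.2]
    · have h : (r s + r' s) / 2 * c s + (k s * a s - k' s * e s) / 2 - c s =
          ((r s + r' s) / 2 - 1) * c s + (k s * a s - k' s * e s) / 2 := by ring
      rw [h, abs_le]
      constructor <;> linarith [e7.1, e7.2, e8.1, e8.2, e9.1, e9.2]
    · rw [abs_le]
      constructor <;> linarith [e10.1, e10.2, e11.1, e11.2, e12.1, e12.2]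
  -- Gronwall
  let u : ℝ → Fin 4 → ℝ := fun s => ![a s, b s, c s, e s]
  let u' : ℝ → Fin 4 → ℝ := fun s => ![(r' s - r s) / 2 * a s - (k' s * b s + k s * c s) / 2,
    -((r s + r' s) / 2 * b s) + (k' s * a s - k s * e s) / 2,
    (r s + r' s) / 2 * c s + (k s * a s - k' s * e s) / 2,
    -((r' s - r s) / 2 * e s) + (k' s * c s + k s * b s) / 2]
  have hu : ∀ s, HasDerivAt u (u' s) s := by
    intro s
    refine hasDerivAt_pi.2 fun i => ?_
    fin_cases i
    · exact ha s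
    · exact hb s
    · exact hc s
    · exact he s
  have hua : ∀ s, |a s| ≤ ‖u s‖ ∧ |b s| ≤ ‖u s‖ ∧ |c s| ≤ ‖u s‖ ∧ |e s| ≤ ‖u s‖ := fun s =>
    ⟨norm_le_pi_norm (u s) 0, norm_le_pi_norm (u s) 1, norm_le_pi_norm (u s) 2, norm_le_pi_norm (u s) 3⟩
  have hbd : ∀ s, ‖u' s‖ ≤ 11 / 10 * ‖u s‖ := by
    intro s
    obtain ⟨h1, h2, h3, h4⟩ := hua s
    obtain ⟨q1, q2, q3, q4⟩ := rhs s ‖u s‖ h1 h2 h3 h4
    have hN : 0 ≤ ‖u s‖ := norm_nonneg _
    have hdN : 2 * d * ‖u s‖ ≤ 1 / 15 * ‖u s‖ := by nlinarith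
    have h2' := abs_le.mp h2
    have h3' := abs_le.mp h3
    have q2' := abs_le.mp q2
    have q3' := abs_le.mp q3
    refine (pi_norm_le_iff_of_nonneg (by positivity)).2 fun i => ?_
    fin_cases i
    · show |(r' s - r s) / 2 * a s - (k' s * b s + k s * c s) / 2| ≤ _
      linarith
    · show |-((r s + r' s) / 2 * b s) + (k' s * a s - k s * e s) / 2| ≤ _
      rw [abs_le]
      constructor <;> linarith [h2'.1, h2'.2, q2'.1, q2'.2]
    · show |(r s + r' s) / 2 * c s + (k s * a s - k' s * e s) / 2| ≤ _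
      rw [abs_le]
      constructor <;> linarith [h3'.1, h3'.2, q3'.1, q3'.2]
    · show |-((r' s - r s) / 2 * e s) + (k' s * c s + k s * b s) / 2| ≤ _
      linarith
  have hu0 : ‖u 0‖ ≤ M := by
    refine (pi_norm_le_iff_of_nonneg hM).2 fun i => ?_
    fin_cases i
    · exact ha0
    · exact hb0
    · exact hc0
    · exact he0
  have hgr : ∀ s, 0 ≤ s → s ≤ 2 → ‖u s‖ ≤ 10 * M := by
    intro s hs hs2
    have h3 := norm_le_gronwallBound_of_norm_deriv_right_le (f := u) (f' := u') (δ := M) (K := 11 / 10)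
      (ε := 0) (a := 0) (b := s) (fun x _ => (hu x).continuousAt.continuousWithinAt)
      (fun x _ => (hu x).hasDerivWithinAt) hu0
      (fun x _ => by rw [add_zero]; exact hbd x) s ⟨hs, le_rfl⟩
    rw [gronwallBound_ε0, sub_zero] at h3
    have h4 : Real.exp (11 / 10 * s) ≤ 10 :=
      (Real.exp_le_exp.2 (by linarith)).trans GL4_exp.1
    calc ‖u s‖ ≤ M * Real.exp (11 / 10 * s) := h3
      _ ≤ M * 10 := mul_le_mul_of_nonneg_left h4 hM
      _ = 10 * M := by ring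
  have hall : ∀ s, 0 ≤ s → s ≤ 2 → |a s| ≤ 10 * M ∧ |b s| ≤ 10 * M ∧ |c s| ≤ 10 * M ∧ |e s| ≤ 10 * M := by
    intro s hs hs2
    obtain ⟨h1, h2, h3, h4⟩ := hua s
    have h := hgr s hs hs2
    exact ⟨h1.trans h, h2.trans h, h3.trans h, h4.trans h⟩
  -- mean value inequality
  have mv : ∀ (f f' : ℝ → ℝ) (C : ℝ), 0 ≤ C → (∀ s, HasDerivAt f (f' s) s) →
      (∀ s, 0 ≤ s → s ≤ 2 → |f' s| ≤ C) → |f t - f 0| ≤ 2 * C := by
    intro f f' C hC h1 h2
    have h3 := norm_image_sub_le_of_norm_deriv_le_segment' (f := f) (f' := f') (C := C) (a := 0) (b := t)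
      (fun x _ => (h1 x).hasDerivWithinAt)
      (fun x hx => h2 x hx.1 (hx.2.le.trans ht2)) t ⟨ht, le_rfl⟩
    rw [Real.norm_eq_abs, sub_zero] at h3
    nlinarith
  have hdM : 0 ≤ d * M := by positivity
  refine ⟨hall t ht ht2, ?_, ?_, ?_, ?_⟩
  · refine (mv a _ (20 * d * M) (by nlinarith) ha ?_).trans (by linarith)
    intro s hs hs2
    obtain ⟨h1, h2, h3, h4⟩ := hall s hs hs2
    exact (rhs s _ h1 h2 h3 h4).1.trans (by linarith)
  · refine (mv e _ (20 * d * M) (by nlinarith) he ?_).trans (by linarith)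
    intro s hs hs2
    obtain ⟨h1, h2, h3, h4⟩ := hall s hs hs2
    exact (rhs s _ h1 h2 h3 h4).2.2.2.trans (by linarith)
  · have hde : ∀ s, HasDerivAt (fun s => c s * Real.exp (-s))
        (((r s + r' s) / 2 * c s + (k s * a s - k' s * e s) / 2 - c s) * Real.exp (-s)) s := by
      intro s
      have h1 : HasDerivAt (fun s : ℝ => Real.exp (-s)) (-Real.exp (-s)) s := by
        have := (hasDerivAt_neg s).exp
        simpa using this
      have h2 := (hc s).mul h1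
      have h3 : ((r s + r' s) / 2 * c s + (k s * a s - k' s * e s) / 2 - c s) * Real.exp (-s) =
          ((r s + r' s) / 2 * c s + (k s * a s - k' s * e s) / 2) * Real.exp (-s) + c s * -Real.exp (-s) := by
        ring
      rw [h3]
      exact h2
    have h0 := mv (fun s => c s * Real.exp (-s)) _ (20 * d * M) (by nlinarith) hde ?_
    · simp only [neg_zero, Real.exp_zero, mul_one] at h0
      linarith
    · intro s hs hs2
      obtain ⟨h1, h2, h3, h4⟩ := hall s hs hs2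
      have h5 := (rhs s _ h1 h2 h3 h4).2.2.1
      have h6 : Real.exp (-s) ≤ 1 := Real.exp_le_one_iff.2 (by linarith)
      rw [abs_mul, abs_of_pos (Real.exp_pos _)]
      calc |(r s + r' s) / 2 * c s + (k s * a s - k' s * e s) / 2 - c s| * Real.exp (-s)
          ≤ (2 * d * (10 * M)) * 1 := mul_le_mul h5 h6 (Real.exp_pos _).le (by nlinarith)
        _ = 20 * d * M := by ring
  · have hde : ∀ s, HasDerivAt (fun s => b s * Real.exp s)
        ((-((r s + r' s) / 2 * b s) + (k' s * a s - k s * e s) / 2 + b s) * Real.exp s) s := by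
      intro s
      have h2 := (hb s).mul (Real.hasDerivAt_exp s)
      have h3 : (-((r s + r' s) / 2 * b s) + (k' s * a s - k s * e s) / 2 + b s) * Real.exp s =
          (-((r s + r' s) / 2 * b s) + (k' s * a s - k s * e s) / 2) * Real.exp s + b s * Real.exp s := by
        ring
      rw [h3]
      exact h2
    have h0 := mv (fun s => b s * Real.exp s) _ (150 * d * M) (by nlinarith) hde ?_
    · simp only [Real.exp_zero, mul_one] at h0
      linarith
    · intro s hs hs2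
      obtain ⟨h1, h2, h3, h4⟩ := hall s hs hs2
      have h5 := (rhs s _ h1 h2 h3 h4).2.1
      have h6 : Real.exp s ≤ 15 / 2 := (Real.exp_le_exp.2 hs2).trans GL4_exp.2
      rw [abs_mul, abs_of_pos (Real.exp_pos _)]
      calc |-((r s + r' s) / 2 * b s) + (k' s * a s - k s * e s) / 2 + b s| * Real.exp s
          ≤ (2 * d * (10 * M)) * (15 / 2) := mul_le_mul h5 h6 (Real.exp_pos _).le (by nlinarith)
        _ = 150 * d * M := by ring

lemma GL4_mul (A X : Matrix (Fin 2) (Fin 2) ℝ) (α M : ℝ) (hA : ∀ i j, |A i j| ≤ α)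
    (hX : ∀ i j, |X i j| ≤ M) (i j : Fin 2) : |(A * X) i j| ≤ 2 * (α * M) := by
  rw [Matrix.mul_apply, Fin.sum_univ_two]
  have h1 : ∀ k, |A i k * X k j| ≤ α * M := fun k => by
    rw [abs_mul]
    exact mul_le_mul (hA i k) (hX k j) (abs_nonneg _) ((abs_nonneg _).trans (hA i k))
  calc |A i 0 * X 0 j + A i 1 * X 1 j| ≤ |A i 0 * X 0 j| + |A i 1 * X 1 j| := abs_add_le _ _
    _ ≤ 2 * (α * M) := by linarith [h1 0, h1 1]

lemma GL4_jump (A X B : Matrix (Fin 2) (Fin 2) ℝ) (ε M : ℝ) (hε : 0 ≤ ε) (hε1 : ε ≤ 1) (hM : 0 ≤ M)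
    (hA : ∀ i j, |(A - 1) i j| ≤ ε) (hB : ∀ i j, |(B - 1) i j| ≤ ε)
    (hX : ∀ i j, |X i j| ≤ M) (i j : Fin 2) : |(A * X * B) i j - X i j| ≤ 8 * (ε * M) := by
  have e1 : A * X * B - X = (A - 1) * (X * B) + X * (B - 1) := by
    simp only [Matrix.sub_mul, Matrix.mul_sub, Matrix.one_mul, Matrix.mul_one, Matrix.mul_assoc]
    abel
  have h1 : ∀ i j, |(X * (B - 1)) i j| ≤ 2 * (M * ε) := GL4_mul X (B - 1) M ε hX hB
  have hMe : M * ε ≤ M := by nlinarith
  have hMe0 : 0 ≤ M * ε := mul_nonneg hM hε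
  have h2 : ∀ i j, |(X * B) i j| ≤ 3 * M := by
    intro i j
    have e2 : X * B = X + X * (B - 1) := by
      rw [Matrix.mul_sub, Matrix.mul_one]
      abel
    rw [e2, Matrix.add_apply]
    calc |X i j + (X * (B - 1)) i j| ≤ |X i j| + |(X * (B - 1)) i j| := abs_add_le _ _
      _ ≤ M + 2 * (M * ε) := add_le_add (hX i j) (h1 i j)
      _ ≤ 3 * M := by linarith
  have h3 := GL4_mul (A - 1) (X * B) ε (3 * M) hA h2 i j
  have h4 : (A * X * B) i j - X i j = ((A - 1) * (X * B)) i j + (X * (B - 1)) i j := by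
    rw [← Matrix.sub_apply, e1, Matrix.add_apply]
  rw [h4]
  calc |((A - 1) * (X * B)) i j + (X * (B - 1)) i j| ≤ |((A - 1) * (X * B)) i j| + |(X * (B - 1)) i j| :=
        abs_add_le _ _
    _ ≤ 2 * (ε * (3 * M)) + 2 * (M * ε) := add_le_add h3 (h1 i j)
    _ = 8 * (ε * M) := by ring

lemma GL4_nm {n : SL(2, ℝ)} {ε : ℝ} (h : nm n ≤ ε) :
    (∀ i j, |(n.1 - 1) i j| ≤ ε) ∧ ∀ i j, |((n⁻¹ : SL(2, ℝ)).1 - 1) i j| ≤ ε := by
  unfold nm at h
  rw [max_le_iff, max_le_iff, max_le_iff] at h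
  obtain ⟨⟨h00, h01⟩, h10, h11⟩ := h
  constructor
  · intro i j
    fin_cases i <;> fin_cases j
    · simpa using h00
    · simpa using h01
    · simpa using h10
    · simpa using h11
  · intro i j
    have e : (n⁻¹ : SL(2, ℝ)).1 = !![n.1 1 1, -n.1 0 1; -n.1 1 0, n.1 0 0] := by
      have := Matrix.SpecialLinearGroup.coe_inv n
      rw [this, Matrix.adjugate_fin_two]
    rw [e]
    fin_cases i <;> fin_cases j
    · simpa using h11
    · simpa using h01
    · simpa using h10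
    · simpa using h00

end GL4aux

theorem GL4_proof (hPD4 : PD4_stmt) : GL4_stmt := by
  refine ⟨100000, by norm_num, ?_⟩
  intro θ d D hθ hθ1 hFE hd hdK t ε E E' g g' g1 g1' x y ht1 ht2 hε hεK hE hE' hn hn' hx hy c1 c2 c3
  have hd1 : d ≤ 1 / 30 := by
    have : θ / 100000 ≤ 1 / 100000 := by gcongr
    linarith
  have hε1 : ε ≤ 1 := by
    have : θ / 100000 ≤ 1 / 100000 := by gcongr
    linarith
  -- the functions
  have hX0 : Xt D E E' g g' 0 = x := by
    rw [Xt, hFE.zero, hFE.zero, hx]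
  set X : ℝ → SL(2, ℝ) := fun s => Xt D E E' g g' s with hXdef
  set M := |x.1 1 0| / θ with hMdef
  have hM0 : 0 ≤ M := div_nonneg (abs_nonneg _) hθ.le
  have hθM : θ * M = |x.1 1 0| := by
    rw [hMdef]
    field_simp
  have hpd := fun s => hPD4 d D hFE E E' s g g' hE hE' _ _ _ _ rfl rfl rfl rfl
  have hc0 : |x.1 1 0| ≤ M := by
    rw [hMdef, le_div_iff₀ hθ]
    nlinarith [abs_nonneg (x.1 1 0)]
  have hode := GL4_ode (fun s => (X s).1 0 0) (fun s => (X s).1 0 1) (fun s => (X s).1 1 0)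
    (fun s => (X s).1 1 1) (fun s => rho D.U E (D.fl E s g)) (fun s => kap D.U E (D.fl E s g))
    (fun s => rho D.U E' (D.fl E' s g')) (fun s => kap D.U E' (D.fl E' s g')) d M t hd hd1
    (fun s => hFE.ro E _ hE) (fun s => hFE.ka E _ hE) (fun s => hFE.ro E' _ hE') (fun s => hFE.ka E' _ hE')
    (fun s => (hpd s).1) (fun s => (hpd s).2.1) (fun s => (hpd s).2.2.1) (fun s => (hpd s).2.2.2)
    (by
      show |(X 0).1 0 0| ≤ M
      rw [hXdef]
      simp only [hX0]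
      rw [hMdef, le_div_iff₀ hθ]
      linarith)
    (by
      show |(X 0).1 0 1| ≤ M
      rw [hXdef]
      simp only [hX0]
      rw [hMdef, le_div_iff₀ hθ]
      linarith)
    (by
      show |(X 0).1 1 0| ≤ M
      rw [hXdef]
      simp only [hX0]
      exact hc0)
    (by
      show |(X 0).1 1 1| ≤ M
      rw [hXdef]
      simp only [hX0]
      rw [hMdef, le_div_iff₀ hθ]
      linarith)
    (by linarith) ht2
  have hX0' : X 0 = x := hX0
  simp only [hX0'] at hode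
  obtain ⟨⟨ba, bb, bc, be⟩, da, de, dc, db⟩ := hode
  -- the jump
  have hyX : y.1 = ((D.fl E t g)⁻¹ * g1)⁻¹.1 * (X t).1 * ((D.fl E' t g')⁻¹ * g1').1 := by
    have h1 : y = ((D.fl E t g)⁻¹ * g1)⁻¹ * (X t) * ((D.fl E' t g')⁻¹ * g1') := by
      rw [hy]
      show g1⁻¹ * g1' = ((D.fl E t g)⁻¹ * g1)⁻¹ * ((D.fl E t g)⁻¹ * D.fl E' t g') * ((D.fl E' t g')⁻¹ * g1')
      group
    rw [h1]
    simp only [Matrix.SpecialLinearGroup.coe_mul]
  have hjump : ∀ i j, |y.1 i j - (X t).1 i j| ≤ 8 * (ε * (10 * M)) := by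
    intro i j
    rw [hyX]
    refine GL4_jump _ _ _ ε (10 * M) hε hε1 (by positivity) (GL4_nm hn).2 (GL4_nm hn').1 ?_ i j
    intro i j
    fin_cases i <;> fin_cases j
    · exact ba
    · exact bb
    · exact bc
    · exact be
  -- numbers
  set c0 := x.1 1 0 with hc0def
  have hdM : 100000 * (d * M) ≤ |c0| := by
    have h1 : d * M ≤ θ / 100000 * M := mul_le_mul_of_nonneg_right hdK hM0
    have h2 : θ / 100000 * M = |c0| / 100000 := by rw [← hθM]; ring
    linarith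
  have hεM : 100000 * (ε * M) ≤ |c0| := by
    have h1 : ε * M ≤ θ / 100000 * M := mul_le_mul_of_nonneg_right hεK hM0
    have h2 : θ / 100000 * M = |c0| / 100000 := by rw [← hθM]; ring
    linarith
  have hdM0 : 0 ≤ d * M := by positivity
  have hεM0 : 0 ≤ ε * M := by positivity
  have hc0ne : 0 < |c0| := by
    rcases eq_or_lt_of_le (abs_nonneg c0) with h | h
    · exfalso
      rw [← h] at c1 c2 c3
      have h1 : |x.1 0 0| ≤ 0 := by nlinarith [abs_nonneg (x.1 0 0)]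
      have h2 : |x.1 0 1| ≤ 0 := by nlinarith [abs_nonneg (x.1 0 1)]
      have h3 := x.2
      rw [Matrix.det_fin_two] at h3
      have h4 : x.1 0 0 = 0 := abs_nonpos_iff.1 h1
      have h5 : x.1 0 1 = 0 := abs_nonpos_iff.1 h2
      rw [h4, h5] at h3
      norm_num at h3
    · exact h
  -- the unstable entry
  set ct := (X t).1 1 0 with hctdef
  have het : 2 ≤ Real.exp t := by linarith [Real.add_one_le_exp t]
  have k1 : ct = Real.exp t * (ct * Real.exp (-t)) := by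
    have : Real.exp t * Real.exp (-t) = 1 := by rw [← Real.exp_add]; simp
    calc ct = ct * (Real.exp t * Real.exp (-t)) := by rw [this, mul_one]
      _ = _ := by ring
  have k2 : c0 ^ 2 * (999 / 1000) ≤ c0 * (ct * Real.exp (-t)) := by
    have h1 : |c0 * (ct * Real.exp (-t) - c0)| ≤ |c0| * (40 * d * M) := by
      rw [abs_mul]
      exact mul_le_mul_of_nonneg_left dc (abs_nonneg _)
    have h2 := (abs_le.mp h1).1
    have h3 : |c0| * (40 * d * M) ≤ |c0| * (|c0| / 1000) := by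
      refine mul_le_mul_of_nonneg_left ?_ (abs_nonneg _)
      linarith
    have h4 : |c0| * (|c0| / 1000) = c0 ^ 2 / 1000 := by
      rw [← sq_abs c0]
      ring
    nlinarith
  have k3 : c0 ^ 2 * (19 / 10) ≤ c0 * y.1 1 0 := by
    have h1 := hjump 1 0
    have h2 : |c0 * (y.1 1 0 - ct)| ≤ |c0| * (8 * (ε * (10 * M))) := by
      rw [abs_mul]
      exact mul_le_mul_of_nonneg_left h1 (abs_nonneg _)
    have h3 := (abs_le.mp h2).1
    have h4 : |c0| * (8 * (ε * (10 * M))) ≤ |c0| * (|c0| / 1000) := by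
      refine mul_le_mul_of_nonneg_left ?_ (abs_nonneg _)
      linarith
    have h5 : |c0| * (|c0| / 1000) = c0 ^ 2 / 1000 := by
      rw [← sq_abs c0]
      ring
    have h6 : c0 ^ 2 * (999 / 500) ≤ c0 * ct := by
      have h7 : 0 ≤ c0 ^ 2 * (999 / 1000) := by positivity
      calc c0 ^ 2 * (999 / 500) = 2 * (c0 ^ 2 * (999 / 1000)) := by ring
        _ ≤ Real.exp t * (c0 ^ 2 * (999 / 1000)) := mul_le_mul_of_nonneg_right het h7
        _ ≤ Real.exp t * (c0 * (ct * Real.exp (-t))) := mul_le_mul_of_nonneg_left k2 (Real.exp_pos _).le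
        _ = c0 * (Real.exp t * (ct * Real.exp (-t))) := by ring
        _ = c0 * ct := by rw [← k1]
    nlinarith [sq_nonneg c0]
  have hc2 : 0 < c0 ^ 2 := by
    rw [← sq_abs]
    positivity
  have k4 : |c0| * (19 / 10) ≤ |y.1 1 0| := by
    have h1 : |c0| * (|c0| * (19 / 10)) ≤ |c0| * |y.1 1 0| := by
      calc |c0| * (|c0| * (19 / 10)) = c0 ^ 2 * (19 / 10) := by rw [← sq_abs c0]; ring
        _ ≤ c0 * y.1 1 0 := k3
        _ ≤ |c0 * y.1 1 0| := le_abs_self _
        _ = |c0| * |y.1 1 0| := abs_mul _ _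
    exact le_of_mul_le_mul_left h1 hc0ne
  -- the other entries
  have other : ∀ (z w v : ℝ), θ * |z| ≤ |c0| → |w| ≤ |z| + 300 * d * M → |v - w| ≤ 8 * (ε * (10 * M)) →
      θ * |v| ≤ |y.1 1 0| := by
    intro z w v h1 h2 h3
    have h4 : |v| ≤ |w| + |v - w| := by
      calc |v| = |w + (v - w)| := by ring_nf
        _ ≤ |w| + |v - w| := abs_add_le _ _
    have h5 : |v| ≤ |z| + |c0| / 100 := by
      linarith
    have h6 : θ * (|c0| / 100) ≤ |c0| / 100 := by nlinarith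
    calc θ * |v| ≤ θ * (|z| + |c0| / 100) := mul_le_mul_of_nonneg_left h5 hθ.le
      _ = θ * |z| + θ * (|c0| / 100) := by ring
      _ ≤ |c0| * (19 / 10) := by linarith
      _ ≤ |y.1 1 0| := k4
  refine ⟨?_, ?_, ?_, lt_of_lt_of_le (by positivity) k3⟩
  · refine other (x.1 0 0) ((X t).1 0 0) (y.1 0 0) c1 ?_ (hjump 0 0)
    have h1 : |(X t).1 0 0| ≤ |x.1 0 0| + |(X t).1 0 0 - x.1 0 0| := by
      calc |(X t).1 0 0| = |x.1 0 0 + ((X t).1 0 0 - x.1 0 0)| := by ring_nf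
        _ ≤ _ := abs_add_le _ _
    linarith
  · refine other (x.1 0 1) ((X t).1 0 1) (y.1 0 1) c2 ?_ (hjump 0 1)
    have h1 : |(X t).1 0 1| ≤ |(X t).1 0 1 * Real.exp t| := by
      rw [abs_mul, abs_of_pos (Real.exp_pos t)]
      nlinarith [abs_nonneg ((X t).1 0 1)]
    have h2 : |(X t).1 0 1 * Real.exp t| ≤ |x.1 0 1| + |(X t).1 0 1 * Real.exp t - x.1 0 1| := by
      calc |(X t).1 0 1 * Real.exp t| = |x.1 0 1 + ((X t).1 0 1 * Real.exp t - x.1 0 1)| := by ring_nf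
        _ ≤ _ := abs_add_le _ _
    linarith
  · refine other (x.1 1 1) ((X t).1 1 1) (y.1 1 1) c3 ?_ (hjump 1 1)
    have h1 : |(X t).1 1 1| ≤ |x.1 1 1| + |(X t).1 1 1 - x.1 1 1| := by
      calc |(X t).1 1 1| = |x.1 1 1 + ((X t).1 1 1 - x.1 1 1)| := by ring_nf
        _ ≤ _ := abs_add_le _ _
    linarith

end Pool.Agent.VQ
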