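import Pool.Agent.helper29.VQ.VAWa

/-!
# Row `VAW` (MP_07c750_an, project VQ): re-expansion of a beam
-/

set_option autoImplicit false

open scoped MatrixGroups ContDiff Topology UpperHalfPlane ComplexConjugate ENNReal
open UpperHalfPlane MeasureTheory Filter Set

namespace Pool.Agent.VQ

open Pool.Agent.RS

noncomputable section

theorem VAW_bot (γ : (⊥ : Subgroup SL(2, ℝ))) (z : ℍ) : γ • z = z := by
  have h : (γ : SL(2, ℝ)) = 1 := Subgroup.mem_bot.1 γ.2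
  show (γ : SL(2, ℝ)) • z = z
  rw [h, one_smul]

/-- energies outside the window -/
theorem VAW_out (G : SL(2, ℝ) × ℝ → ℂ) (U : ℍ → ℝ) (R E0 X : ℝ) (hR : 0 < R)
    (hE0 : |E0| ≤ 31 / 16 * R ^ (-(1 / 4) : ℝ)) (hX : 0 ≤ X)
    (h : ∫⁻ g in dG univ, (∫⁻ E in {E : ℝ | -(U (g • I) / 2) < E},
      ENNReal.ofReal ((E - E0) ^ 2) * ‖G (g, E)‖ₑ ^ 2) ∂mG ≤ ENNReal.ofReal X) :
    (∫⁻ g in dG univ, (∫⁻ E in {E : ℝ | -(U (g • I) / 2) < E} \ Wi 2 R, ‖G (g, E)‖ₑ ^ 2) ∂mG).toReal ≤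
      256 * R ^ (1 / 2 : ℝ) * X := by
  set c : ENNReal := ENNReal.ofReal (256 * R ^ (1 / 2 : ℝ)) with hc
  have hc0 : c ≠ ⊤ := ENNReal.ofReal_ne_top
  have h1 : ∀ g : SL(2, ℝ), ∫⁻ E in {E : ℝ | -(U (g • I) / 2) < E} \ Wi 2 R, ‖G (g, E)‖ₑ ^ 2 ≤
      c * ∫⁻ E in {E : ℝ | -(U (g • I) / 2) < E}, ENNReal.ofReal ((E - E0) ^ 2) * ‖G (g, E)‖ₑ ^ 2 := by
    intro g
    rw [← lintegral_const_mul' _ _ hc0]
    have hm : MeasurableSet ({E : ℝ | -(U (g • I) / 2) < E} \ Wi 2 R) :=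
      (measurableSet_lt measurable_const measurable_id).diff measurableSet_Icc
    refine (setLIntegral_mono' hm fun E hE => ?_).trans (lintegral_mono_set sdiff_subset)
    rw [← mul_assoc]
    refine le_mul_of_one_le_left zero_le ?_
    rw [hc, ← ENNReal.ofReal_mul (by positivity), ENNReal.one_le_ofReal]
    have h2 : E ∉ Icc (-(2 * R ^ (-(1 / 4) : ℝ))) (2 * R ^ (-(1 / 4) : ℝ)) := hE.2
    have h3 : 2 * R ^ (-(1 / 4) : ℝ) < |E| := by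
      by_contra h4
      push Not at h4
      exact h2 (abs_le.1 h4)
    have h5 : 1 / 16 * R ^ (-(1 / 4) : ℝ) ≤ |E - E0| := by
      have h6 := abs_sub_abs_le_abs_sub E E0
      linarith
    have h7 : 0 ≤ 1 / 16 * R ^ (-(1 / 4) : ℝ) := by positivity
    have h8 : (1 / 16 * R ^ (-(1 / 4) : ℝ)) ^ 2 ≤ (E - E0) ^ 2 := by
      rw [← sq_abs (E - E0)]
      exact pow_le_pow_left₀ h7 h5 2
    have h9 : R ^ (1 / 2 : ℝ) * (R ^ (-(1 / 4) : ℝ)) ^ 2 = 1 := by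
      rw [← Real.rpow_natCast, ← Real.rpow_mul hR.le, ← Real.rpow_add hR]
      norm_num
    calc (1 : ℝ) = R ^ (1 / 2 : ℝ) * (R ^ (-(1 / 4) : ℝ)) ^ 2 := h9.symm
      _ = 256 * R ^ (1 / 2 : ℝ) * (1 / 16 * R ^ (-(1 / 4) : ℝ)) ^ 2 := by ring
      _ ≤ 256 * R ^ (1 / 2 : ℝ) * (E - E0) ^ 2 := mul_le_mul_of_nonneg_left h8 (by positivity)
  have h2 : ∫⁻ g in dG univ, (∫⁻ E in {E : ℝ | -(U (g • I) / 2) < E} \ Wi 2 R, ‖G (g, E)‖ₑ ^ 2) ∂mG ≤
      ENNReal.ofReal (256 * R ^ (1 / 2 : ℝ) * X) := by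
    calc ∫⁻ g in dG univ, (∫⁻ E in {E : ℝ | -(U (g • I) / 2) < E} \ Wi 2 R, ‖G (g, E)‖ₑ ^ 2) ∂mG
        ≤ ∫⁻ g in dG univ, (c * ∫⁻ E in {E : ℝ | -(U (g • I) / 2) < E},
          ENNReal.ofReal ((E - E0) ^ 2) * ‖G (g, E)‖ₑ ^ 2) ∂mG := lintegral_mono fun g => h1 g
      _ = c * ∫⁻ g in dG univ, (∫⁻ E in {E : ℝ | -(U (g • I) / 2) < E},
          ENNReal.ofReal ((E - E0) ^ 2) * ‖G (g, E)‖ₑ ^ 2) ∂mG := lintegral_const_mul' _ _ hc0
      _ ≤ c * ENNReal.ofReal X := mul_le_mul_right h _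
      _ = ENNReal.ofReal (256 * R ^ (1 / 2 : ℝ) * X) := by
          rw [hc, ← ENNReal.ofReal_mul (by positivity)]
  refine (ENNReal.toReal_mono ENNReal.ofReal_ne_top h2).trans ?_
  rw [ENNReal.toReal_ofReal (by positivity)]

theorem VAW_proof (hVEN : VEN_stmt) (hVFD : VFD_stmt) (hVFB : VFB_stmt) (hVFM : VFM_stmt)
    (hVD0 : VD0_stmt) (hVQA : VQA_stmt) (hVEL : VEL_stmt) (hVLE : VLE_stmt) (hVNP : VNP_stmt)
    (hVOX : VOX_stmt) (hVRM : VRM_stmt) (hVPR : VPR_stmt) (hVCD : VCD_stmt) (hVUB : VUB_stmt)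
    (hVQS : VQS_stmt) (hVFR : VFR_stmt) : VAW_stmt := by
  obtain ⟨CFB, hCFB, HFB⟩ := hVFB
  obtain ⟨CFM, hCFM, HFM⟩ := hVFM
  obtain ⟨CD0, hCD0, HD0⟩ := hVD0
  obtain ⟨CLE, hCLE, HLE⟩ := hVLE
  obtain ⟨CNP, hCNP, HNP⟩ := hVNP
  obtain ⟨hox1, hox2, -, -, -, hox6⟩ := hVOX
  have hcdc : Continuous cd := hVCD.2.2.2.2.2.2.2.1
  have hp1 : 0 ≤ CFB * CFM := by nlinarith
  have hp2 : 0 ≤ CFB * CD0 := by nlinarith
  obtain ⟨C0, hC0⟩ : ∃ C0 : ℝ, C0 = CFM + CFB * CFM + CD0 + CFB * CD0 + CLE + CNP + 8 := ⟨_, rfl⟩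
  have hC01 : 8 ≤ C0 := by rw [hC0]; linarith
  refine ⟨2000 * C0, by linarith, ?_⟩
  intro ch e ζ ζ2 B hch hRg
  obtain ⟨he0, hζ0, hζζ, hCe, hCζ⟩ := hRg
  have hζ2 : 0 < ζ2 := hζ0.trans_le hζζ
  have hCζ' : C0 * ζ2 ≤ 1 / 2000 := by linarith
  have hsmall : CFM * ζ2 + CFB * CFM * ζ2 + CD0 * ζ2 + CFB * CD0 * ζ2 + CLE * ζ2 + CNP * ζ2 + 8 * ζ2 ≤
      1 / 2000 := by
    have : (CFM + CFB * CFM + CD0 + CFB * CD0 + CLE + CNP + 8) * ζ2 ≤ 1 / 2000 := by rw [← hC0]; exact hCζ'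
    linarith
  have n1 : 0 < CFM * ζ2 := by positivity
  have n2 : 0 ≤ CFB * CFM * ζ2 := mul_nonneg hp1 hζ2.le
  have n3 : 0 < CD0 * ζ2 := by positivity
  have n4 : 0 ≤ CFB * CD0 * ζ2 := mul_nonneg hp2 hζ2.le
  have n5 : 0 < CLE * ζ2 := by positivity
  have n6 : 0 < CNP * ζ2 := by positivity
  have hζ28 : ζ2 ≤ 1 / 8 := by linarith
  have hζ8 : ζ ≤ 1 / 8 := hζζ.trans hζ28
  have he1 : e ≤ 1 := by nlinarith
  have rg : ∀ C' : ℝ, 0 ≤ C' → C' ≤ 2000 * C0 → Rg C' e ζ ζ2 := by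
    intro C' h0 h1
    refine ⟨he0, hζ0, hζζ, ?_, ?_⟩
    · exact (mul_le_mul_of_nonneg_right h1 he0).trans hCe
    · exact (mul_le_mul_of_nonneg_right h1 hζ2.le).trans hCζ
  obtain ⟨K1, R1, hR1, H1⟩ := HFB (CFM * ζ2) n1 (by linarith [mul_assoc CFB CFM ζ2])
  obtain ⟨K2, R2, hR2, H2⟩ := HFB (CD0 * ζ2) n3 (by linarith [mul_assoc CFB CD0 ζ2])
  obtain ⟨R3, hR3, H3⟩ := HFM ch K1 e ζ ζ2 B hch (rg CFM (by linarith) (by linarith))
  obtain ⟨R4, hR4, H4⟩ := HD0 ch K2 e ζ ζ2 ζ2 1 hch (rg CD0 (by linarith) (by linarith)) le_rfl (by linarith)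
  obtain ⟨R5, hR5, H5⟩ := HLE ch e ζ ζ2 B hch (rg CLE (by linarith) (by linarith))
  obtain ⟨R6, hR6, H6⟩ := HNP ch e ζ ζ2 B hch (rg CNP (by linarith) (by linarith))
  obtain ⟨R7, hR7, H7⟩ := hVQA ch ζ hch hζ0 hζ8
  obtain ⟨R8, hR8, H8⟩ := hVEL ch ζ (1 / 10) hch hζ0 hζ8
  obtain ⟨R9, hR9, H9⟩ := hVQS ch ζ hch hζ0 hζ8
  have h83 : (1 : ℝ) ≤ (83 : ℝ) ^ 40 := one_le_pow₀ (by norm_num)
  refine ⟨R1 + R2 + R3 + R4 + R5 + R6 + R7 + R8 + R9 + (83 : ℝ) ^ 40, by linarith, ?_⟩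
  intro R δ s t Γ D p hR hD hδ hp hs ht hst
  have hR83 : (83 : ℝ) ^ 40 ≤ R := by linarith
  have h832 : (2 : ℝ) ≤ (83 : ℝ) ^ 40 := by norm_num
  have hR1' : 1 ≤ R := by linarith
  have hR2' : 2 ≤ R := by linarith
  have hRpos : 0 < R := by linarith
  obtain ⟨hnum, hq⟩ := VAW_num R hR83
  have hq0 : 0 < R ^ (-(1 / 4) : ℝ) := Real.rpow_pos_of_pos hRpos _
  have hlog : 0 ≤ Real.log R := Real.log_nonneg hR1'
  have hD1 : OKD ⊥ δ B D := hox1 Γ δ B D hD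
  have hW2 : 2 * R ^ (-(1 / 4) : ℝ) ≤ 1 / 8 := by linarith
  have hE31 : |p.2| ≤ 31 / 16 * R ^ (-(1 / 4) : ℝ) := abs_le.2 ⟨hp.1, hp.2⟩
  have hE16 : |p.2| ≤ 1 / 16 := by linarith
  have hE8 : |p.2| ≤ 1 / 8 := by linarith
  have hpGW : p ∈ GW 2 R := by
    refine ⟨mem_univ _, ?_⟩
    have h1 := abs_le.1 hE31
    exact ⟨by linarith [h1.1], by linarith [h1.2]⟩
  have hWall : ∀ q ∈ GW 2 R, |q.2| ≤ 1 / 8 := by
    intro q hq'
    have h1 : q.2 ∈ Icc (-(2 * R ^ (-(1 / 4) : ℝ))) (2 * R ^ (-(1 / 4) : ℝ)) := hq'.2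
    exact (abs_le.2 h1).trans hW2
  have hpow : ∀ x : ℝ, x ≤ -(1 / 4) → R ^ x ≤ 1 / 4 := by
    intro x hx
    exact (Real.rpow_le_rpow_of_exponent_le hR1' hx).trans (hq.trans (by norm_num))
  have hzero : R ^ (-(1 / 2) + ζ2) ≤ 1 / 4 := hpow _ (by linarith)
  have hzero1 : R ^ (-(1 / 2) + CFM * ζ2) ≤ 1 / 4 := hpow _ (by linarith)
  have hzero2 : R ^ (-(1 / 2) + CD0 * ζ2) ≤ 1 / 4 := hpow _ (by linarith)
  have hψ : ∀ τ, FH ⊥ univ (psi D ch ζ ζ2 R τ p) ∧ QU.CD 2 (psi D ch ζ ζ2 R τ p) := fun τ =>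
    hox6 D ch ζ ζ2 R τ δ ⊥ B p hch hζ2 hζ28 hR2' hD1 hδ hE8 hzero
  obtain ⟨hPU, -, -, -, -, hgr, -⟩ := hVUB ⊥ δ B D.U hD1.pot hδ
  have hgrad : ∀ (g : SL(2, ℝ)) (v : ℂ), ‖v‖ ≤ 1 → |Ug D.U g v - Ug D.U g 0| ≤ 1 / 10 * ‖v‖ :=
    fun g v hv => (hgr g v hv).2.trans (mul_le_mul_of_nonneg_right hδ (norm_nonneg _))
  obtain ⟨-, -, -, hQF, hQs, -⟩ := H9 R ⊥ univ D.U (by linarith) hox2 hPU
  obtain ⟨v, hvdef⟩ : ∃ v, v = QF D.U ch ζ R (psi D ch ζ ζ2 R s p) := ⟨_, rfl⟩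
  have hvFP : FP ⊥ univ v := by
    rw [hvdef]
    exact (hQF _ (hψ s).1).2
  have hslog : s ≤ e * Real.log R := by linarith
  -- norms
  have hnnψ : nn univ (psi D ch ζ ζ2 R s p) ≤ R ^ 2 := by
    have h1 := (H6 R δ s ⊥ D p (by linarith) hD1 hδ hE8 hs hslog).1
    have h2 : R ^ (-(1 / 5) : ℝ) ≤ 1 := Real.rpow_le_one_of_one_le_of_nonpos hR1' (by norm_num)
    have h3 : (1 + R ^ (-(1 / 5) : ℝ)) * (R ^ 2 / (2 * Real.pi)) ≤ 2 * (R ^ 2 / (2 * 3)) := by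
      refine mul_le_mul (by linarith) ?_ (by positivity) (by norm_num)
      exact div_le_div_of_nonneg_left (by positivity) (by norm_num) (by linarith [Real.pi_gt_three])
    have h4 : 0 ≤ R ^ 2 := by positivity
    linarith
  have hnPv : nP univ 2 R v ≤ R ^ 2 := by
    rw [hvdef]
    exact ((H7 R ⊥ univ D.U (by linarith) hox2 hPU).1 _ (hψ s).1).1.trans hnnψ
  have hnPv0 : 0 ≤ nP univ 2 R v := integral_nonneg fun p => by positivity
  -- the families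
  have hfam : ∀ τ, 0 ≤ τ → τ ≤ s + t → |τ| ≤ e * Real.log R := by
    intro τ h0 h1
    rw [abs_of_nonneg h0]
    linarith
  have hF := fun τ h0 h1 => H3 R δ τ ⊥ D (by linarith) hD1 hδ (hfam τ h0 h1)
  have hm0 : (0 : ℝ) ≤ R ^ (1 + CFM * ζ2) := by positivity
  have hm0' : (0 : ℝ) ≤ R ^ (3 / 2 + CFM * ζ2) := by positivity
  have hFEr := fun τ h0 h1 => hVFR ⊥ univ δ B D K1 (CFM * ζ2) (R ^ (1 + CFM * ζ2)) R τ
    (Er D ch ζ ζ2 R τ) hox2 hD1 hδ n1 (by linarith) hm0 hzero1 hW2 hR1' (hF τ h0 h1).2.1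
  have hFpv := fun τ h0 h1 => hVFR ⊥ univ δ B D K1 (CFM * ζ2) (R ^ (3 / 2 + CFM * ζ2)) R τ
    (pv D ch ζ ζ2 R τ) hox2 hD1 hδ n1 (by linarith) hm0' hzero1 hW2 hR1' (hF τ h0 h1).1
  -- the error of the single beam
  have hPFH : ∀ τ, 0 ≤ τ → τ ≤ s + t → FH ⊥ univ (fun z => pF D τ (Er D ch ζ ζ2 R τ) p z) := by
    intro τ h0 h1
    obtain ⟨hc, hb, -⟩ := hFEr τ h0 h1
    refine ⟨?_, fun γ z => by rw [VAW_bot], ⟨6 / 5 * |τ| + 1 + dist (p.1 • I : ℍ) I, fun z _ hz => ?_⟩⟩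
    · have g1 : Continuous fun z : ℍ => ((p, z) : (SL(2, ℝ) × ℝ) × ℍ) := continuous_const.prodMk continuous_id
      have g2 := hc.comp_continuous g1 (fun _ => hE8)
      exact g2
    · have h2 := ((hb p hpGW z).2 hz).2
      have h3 := dist_triangle z (p.1 • I : ℍ) I
      rw [dist_comm (p.1 • I : ℍ) z] at h2
      linarith
  obtain ⟨b, hb1, hb2, hb3, hb4, hb5, hb6⟩ := hVFD ch ζ ζ2 R δ ⊥ univ B D v hch hζ0 hζζ hζ28 hzero hW2 hR2'
    hox2 hD1 hδ hvFP t ht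
  obtain ⟨hpr1, hpr2, -, -, -, hpr6, -⟩ := hVPR ch ζ ζ2 R δ ⊥ B D hch hζ2 hζ28 hR2' hD1 hδ
  have hrm := fun τ => (hVRM ch ζ ζ2 R δ ⊥ B D p τ hch hζ2 hζ28 hR2' hD1 hδ hE8).2
  -- the energy estimate
  obtain ⟨Q, hQ⟩ : ∃ Q : ℝ, Q = R ^ (501 / 1000 : ℝ) := ⟨_, rfl⟩
  have hQ0 : 0 < Q := by rw [hQ]; positivity
  have hen := hVEN ⊥ univ D.U R t (5 * Q) (max b (6 / 5 * (s + t) + 1 + dist (p.1 • I : ℍ) I))
    (fun r z => (∫ q in GW 2 R, v q * psi D ch ζ ζ2 R r q z ∂mP) - psi D ch ζ ζ2 R (s + r) p z)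
    (fun r z => -Complex.I * (sF D R r (fun q => Er D ch ζ ζ2 R r q) v z - pF D (s + r) (Er D ch ζ ζ2 R (s + r)) p z))
    hox2 hPU hR1' ht (by positivity) ?_ ?_ ?_ ?_ ?_ ?_
  rotate_left
  · -- functions
    intro r hr
    obtain ⟨h1, h2, h3⟩ := hb1 r hr
    have h4 : 0 ≤ s + r := by linarith [hr.1]
    have h5 : s + r ≤ s + t := by linarith [hr.2]
    have h6 := hPFH (s + r) h4 h5
    refine ⟨VAW_FHsub h1 (hψ (s + r)).1, (VAW_lap h2 (hψ (s + r)).2).1, VAW_FHmul (VAW_FHsub h3 h6) _, ?_⟩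
    rw [VAW_nnmul _ _ (by simp)]
    refine (VAW_nnsub MeasurableSet.univ h3 h6).trans ?_
    have h7 : nn univ (sF D R r (fun q => Er D ch ζ ζ2 R r q) v) ≤ Q ^ 2 := by
      have h8 := (H1 R δ (R ^ (1 + CFM * ζ2)) r ⊥ univ B D (Er D ch ζ ζ2 R r) (by linarith) hox2 hD1 hδ hm0
        (hF r hr.1 (by linarith [hr.2])).2.1).1 v hvFP
      refine h8.trans ?_
      have h9 : R ^ (1 + CFM * ζ2) * R ^ (-(3 / 2) + CFB * (CFM * ζ2)) ≤ R ^ (-(499 / 1000) : ℝ) := by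
        rw [← Real.rpow_add hRpos]
        exact Real.rpow_le_rpow_of_exponent_le hR1' (by linarith [mul_assoc CFB CFM ζ2])
      have h10 : R ^ (-(499 / 1000) : ℝ) * R = Q := by
        rw [hQ, ← Real.rpow_add_one hRpos.ne']
        norm_num
      calc (R ^ (1 + CFM * ζ2) * R ^ (-(3 / 2) + CFB * (CFM * ζ2))) ^ 2 * nP univ 2 R v
          ≤ (R ^ (-(499 / 1000) : ℝ)) ^ 2 * R ^ 2 := by
            refine mul_le_mul (pow_le_pow_left₀ (by positivity) h9 2) hnPv hnPv0 (by positivity)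
        _ = (R ^ (-(499 / 1000) : ℝ) * R) ^ 2 := by ring
        _ = Q ^ 2 := by rw [h10]
    have h8 : nn univ (fun z => pF D (s + r) (Er D ch ζ ζ2 R (s + r)) p z) ≤ 8 * Q ^ 2 := by
      have h9 := (H6 R δ s ⊥ D p (by linarith) hD1 hδ hE8 hs hslog).2.2.2.2 K1 (CFM * ζ2)
        (R ^ (1 + CFM * ζ2)) _ (Er D ch ζ ζ2 R (s + r) p) (D.fl p.2 (s + r) p.1) n1 (by linarith) hm0 hzero1
        ((hF (s + r) h4 h5).2.1.pk p hpGW)
      refine h9.trans ?_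
      have h10 : R ^ (1 + CFM * ζ2) * R ^ (-(1 / 2) + CFM * ζ2) ≤ Q := by
        rw [← Real.rpow_add hRpos, hQ]
        exact Real.rpow_le_rpow_of_exponent_le hR1' (by linarith)
      have h11 := pow_le_pow_left₀ (by positivity) h10 2
      linarith
    nlinarith [sq_nonneg Q]
  · -- supports
    intro r hr z _ hz
    have h4 : 0 ≤ s + r := by linarith [hr.1]
    have h5 : s + r ≤ s + t := by linarith [hr.2]
    have key : ∀ x : ℝ, x ≤ 6 / 5 * |s + r| + 1 → dist z (p.1 • I : ℍ) ≤ x →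
        dist z I ≤ max b (6 / 5 * (s + t) + 1 + dist (p.1 • I : ℍ) I) := by
      intro x hx h6
      have h7 := dist_triangle z (p.1 • I : ℍ) I
      rw [abs_of_nonneg h4] at hx
      exact (by linarith : dist z I ≤ 6 / 5 * (s + t) + 1 + dist (p.1 • I : ℍ) I).trans (le_max_right _ _)
    rcases hz with hz | hz
    · by_cases h6 : (∫ q in GW 2 R, v q * psi D ch ζ ζ2 R r q z ∂mP) = 0
      · have h7 : psi D ch ζ ζ2 R (s + r) p z ≠ 0 := by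
          intro h8
          apply hz
          show (∫ q in GW 2 R, v q * psi D ch ζ ζ2 R r q z ∂mP) - psi D ch ζ ζ2 R (s + r) p z = 0
          rw [h6, h8, sub_zero]
        have h8 : pF D (s + r) (pv D ch ζ ζ2 R (s + r)) p z ≠ 0 := by
          rw [(hF (s + r) h4 h5).2.2.2.1]
          exact h7
        refine key _ le_rfl ?_
        rw [dist_comm]
        exact (((hFpv (s + r) h4 h5).2.1 p hpGW z).2 h8).2
      · exact (hb2 r hr z (mem_univ _) (Or.inl h6)).trans (le_max_left _ _)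
    · by_cases h6 : sF D R r (fun q => Er D ch ζ ζ2 R r q) v z = 0
      · have h8 : pF D (s + r) (Er D ch ζ ζ2 R (s + r)) p z ≠ 0 := by
          intro h8
          apply hz
          show -Complex.I * (sF D R r (fun q => Er D ch ζ ζ2 R r q) v z -
            pF D (s + r) (Er D ch ζ ζ2 R (s + r)) p z) = 0
          rw [h6, h8, sub_zero, mul_zero]
        refine key _ le_rfl ?_
        rw [dist_comm]
        exact (((hFEr (s + r) h4 h5).2.1 p hpGW z).2 h8).2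
      · exact (hb2 r hr z (mem_univ _) (Or.inr h6)).trans (le_max_left _ _)
  · -- continuity of w
    have h1 : Continuous fun x : ℝ × ℍ => (((p, s + x.1), x.2) : ((SL(2, ℝ) × ℝ) × ℝ) × ℍ) :=
      (continuous_const.prodMk (continuous_const.add continuous_fst)).prodMk continuous_snd
    have h2 := hpr1.comp_continuous h1 (fun _ => hE8)
    have h3 : Continuous fun x : ℝ × ℍ => psi D ch ζ ζ2 R (s + x.1) p x.2 := h2
    have h4 := hb3.sub h3.continuousOn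
    exact h4
  · -- continuity of the Laplacian
    have h1 : Continuous fun x : ℝ × ℍ => (((p, s + x.1), x.2) : ((SL(2, ℝ) × ℝ) × ℝ) × ℍ) :=
      (continuous_const.prodMk (continuous_const.add continuous_fst)).prodMk continuous_snd
    have h2 : Continuous fun x : ℝ × ℍ => QU.lap (psi D ch ζ ζ2 R (s + x.1) p) x.2 :=
      hpr2.comp_continuous h1 fun _ => hE8
    refine (hb4.sub h2.continuousOn).congr fun x hx => ?_
    exact (VAW_lap (hb1 x.1 hx.1).2.1 (hψ (s + x.1)).2).2 x.2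
  · -- continuity of e
    have h1 : Continuous fun x : ℝ × ℍ => ((p.2, s + x.1, p.1) : ℝ × ℝ × SL(2, ℝ)) :=
      continuous_const.prodMk ((continuous_const.add continuous_fst).prodMk continuous_const)
    have h2a := hD1.cfl.comp_continuous h1 (fun _ => hE8)
    have h2 : Continuous fun x : ℝ × ℍ => D.fl p.2 (s + x.1) p.1 := h2a
    have h3a := h2.inv.smul (continuous_snd (X := ℝ) (Y := ℍ))
    have h3b := hcdc.comp h3a
    have h3 : Continuous fun x : ℝ × ℍ => cd ((D.fl p.2 (s + x.1) p.1)⁻¹ • x.2) := h3b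
    have h4 : Continuous fun x : ℝ × ℍ =>
        (((p, s + x.1), cd ((D.fl p.2 (s + x.1) p.1)⁻¹ • x.2)) : ((SL(2, ℝ) × ℝ) × ℝ) × ℂ) :=
      (continuous_const.prodMk (continuous_const.add continuous_fst)).prodMk h3
    have h5a := hpr6.comp_continuous h4 (fun _ => hE8)
    have h5 : Continuous fun x : ℝ × ℍ => Er D ch ζ ζ2 R (s + x.1) p (cd ((D.fl p.2 (s + x.1) p.1)⁻¹ • x.2)) := h5a
    have h6 := (continuousOn_const (c := -Complex.I) (s := Icc 0 t ×ˢ (univ : Set ℍ))).mul (hb5.sub h5.continuousOn)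
    exact h6
  · -- the equation
    intro r hr z
    have h1 := hb6 r hr z
    have h2 := (hrm (s + r) z).2
    have h3 := h2.comp_const_add s r
    have h4 := h1.sub h3
    have h5 := VAW_Hop (hb1 r hr).2.1 (hψ (s + r)).2 D.U R z
    have h6 : -(Complex.I * Hop D.U R (fun z => (∫ q in GW 2 R, v q * psi D ch ζ ζ2 R r q z ∂mP) -
          psi D ch ζ ζ2 R (s + r) p z) z) +
        -Complex.I * (sF D R r (fun q => Er D ch ζ ζ2 R r q) v z - pF D (s + r) (Er D ch ζ ζ2 R (s + r)) p z) =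
        -(Complex.I * Hop D.U R (fun z => ∫ q in GW 2 R, v q * psi D ch ζ ζ2 R r q z ∂mP) z) +
          -(Complex.I * sF D R r (fun q => Er D ch ζ ζ2 R r q) v z) -
        (-(Complex.I * Hop D.U R (psi D ch ζ ζ2 R (s + r) p) z) -
          Complex.I * Er D ch ζ ζ2 R (s + r) p (cd ((D.fl p.2 (s + r) p.1)⁻¹ • z))) := by
      rw [h5]
      unfold pF
      ring
    rw [h6]
    exact h4
  -- the initial value
  have hFd : Fa ⊥ D K2 (CD0 * ζ2) (R ^ (-1 : ℝ)) R 0 (fun p v => pv D ch ζ ζ2 R 0 p v - fG D ch ζ R p v) := by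
    obtain ⟨f1, -, f3, -⟩ := hF 0 le_rfl (by linarith)
    refine ⟨f1.cont.sub f3.cont, fun γ p => ?_, fun p hp => ?_⟩
    · funext v
      show pv D ch ζ ζ2 R 0 ((γ : SL(2, ℝ)) * p.1, p.2) v - fG D ch ζ R ((γ : SL(2, ℝ)) * p.1, p.2) v = _
      rw [f1.inv γ p, f3.inv γ p]
    · have h1 := (H4 R δ ⊥ B D p 0 (by linarith) hD1 hδ (hWall p hp) (hfam 0 le_rfl (by linarith))).1
      rw [hD1.fl0]
      exact h1
  have hFdR := hVFR ⊥ univ δ B D K2 (CD0 * ζ2) (R ^ (-1 : ℝ)) R 0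
    (fun p v => pv D ch ζ ζ2 R 0 p v - fG D ch ζ R p v) hox2 hD1 hδ n3 (by linarith) (by positivity) hzero2
    hW2 hR1' hFd
  have hX1 : nn univ (sF D R 0 (fun p v => pv D ch ζ ζ2 R 0 p v - fG D ch ζ R p v) v) ≤ 1 := by
    have h1 := (H2 R δ (R ^ (-1 : ℝ)) 0 ⊥ univ B D _ (by linarith) hox2 hD1 hδ (by positivity) hFd).1 v hvFP
    refine h1.trans ?_
    have h9 : R ^ (-1 : ℝ) * R ^ (-(3 / 2) + CFB * (CD0 * ζ2)) ≤ R ^ (-1 : ℝ) := by
      rw [← Real.rpow_add hRpos]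
      exact Real.rpow_le_rpow_of_exponent_le hR1' (by linarith [mul_assoc CFB CD0 ζ2])
    calc (R ^ (-1 : ℝ) * R ^ (-(3 / 2) + CFB * (CD0 * ζ2))) ^ 2 * nP univ 2 R v
        ≤ (R ^ (-1 : ℝ)) ^ 2 * R ^ 2 :=
          mul_le_mul (pow_le_pow_left₀ (by positivity) h9 2) hnPv hnPv0 (by positivity)
      _ = 1 := by
          rw [Real.rpow_neg_one, ← mul_pow, inv_mul_cancel₀ hRpos.ne', one_pow]
  have hY1 : nn univ (fun z => Qs D.U ch ζ R v z - psi D ch ζ ζ2 R s p z) ≤ 512 * R ^ (3 / 2 + 1 / 200 : ℝ) := by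
    have h1 := ((H7 R ⊥ univ D.U (by linarith) hox2 hPU).1 _ (hψ s).1).2
    rw [← hvdef] at h1
    refine h1.trans ?_
    have h2 := H8 R ⊥ univ D.U (psi D ch ζ ζ2 R s p) p.2 (by linarith) hox2 hPU hgrad hE16 (hψ s).1 (hψ s).2
    rw [← hvdef] at h2
    have h3 := H5 R δ s ⊥ D p (by linarith) hD1 hδ hE8 (hfam s hs (by linarith))
    refine (VAW_out v D.U R p.2 _ hRpos hE31 ?_ h2).trans ?_
    · have := VAW_nn0 univ (fun z => QU.lap (psi D ch ζ ζ2 R s p) z -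
        ((R ^ 2 * (D.U z + 2 * p.2) : ℝ) : ℂ) * psi D ch ζ ζ2 R s p z)
      have := VAW_nn0 univ (psi D ch ζ ζ2 R s p)
      positivity
    · have h4 : R ^ (-4 : ℝ) * R ^ (5 + CLE * ζ2) = R ^ (1 + CLE * ζ2) := by
        rw [← Real.rpow_add hRpos]
        congr 1
        ring
      have h5 : R ^ (-1 : ℝ) * R ^ 2 = R ^ (1 : ℝ) := by
        rw [← Real.rpow_natCast, ← Real.rpow_add hRpos]
        norm_num
      have h6 : R ^ (1 : ℝ) ≤ R ^ (1 + CLE * ζ2) := Real.rpow_le_rpow_of_exponent_le hR1' (by linarith)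
      have h7 : R ^ (-4 : ℝ) * nn univ (fun z => QU.lap (psi D ch ζ ζ2 R s p) z -
          ((R ^ 2 * (D.U z + 2 * p.2) : ℝ) : ℂ) * psi D ch ζ ζ2 R s p z) +
          R ^ (-1 : ℝ) * nn univ (psi D ch ζ ζ2 R s p) ≤ 2 * R ^ (1 + CLE * ζ2) := by
        have h8 := mul_le_mul_of_nonneg_left h3 (by positivity : (0 : ℝ) ≤ R ^ (-4 : ℝ))
        have h9 := mul_le_mul_of_nonneg_left hnnψ (by positivity : (0 : ℝ) ≤ R ^ (-1 : ℝ))
        rw [h4] at h8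
        rw [h5] at h9
        linarith
      calc 256 * R ^ (1 / 2 : ℝ) * (R ^ (8 * ζ) * (R ^ (-4 : ℝ) * nn univ (fun z =>
            QU.lap (psi D ch ζ ζ2 R s p) z - ((R ^ 2 * (D.U z + 2 * p.2) : ℝ) : ℂ) * psi D ch ζ ζ2 R s p z) +
            R ^ (-1 : ℝ) * nn univ (psi D ch ζ ζ2 R s p)))
          ≤ 256 * R ^ (1 / 2 : ℝ) * (R ^ (8 * ζ) * (2 * R ^ (1 + CLE * ζ2))) := by gcongr
        _ = 512 * (R ^ (1 / 2 : ℝ) * R ^ (8 * ζ) * R ^ (1 + CLE * ζ2)) := by ring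
        _ = 512 * R ^ (1 / 2 + 8 * ζ + (1 + CLE * ζ2)) := by rw [← Real.rpow_add hRpos, ← Real.rpow_add hRpos]
        _ ≤ 512 * R ^ (3 / 2 + 1 / 200 : ℝ) := by
            refine mul_le_mul_of_nonneg_left ?_ (by norm_num)
            exact Real.rpow_le_rpow_of_exponent_le hR1' (by linarith)
  have hw0 : nn univ (fun z => (∫ q in GW 2 R, v q * psi D ch ζ ζ2 R 0 q z ∂mP) - psi D ch ζ ζ2 R (s + 0) p z) ≤
      (33 * R ^ (301 / 400 : ℝ)) ^ 2 := by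
    have h1 : (fun z => (∫ q in GW 2 R, v q * psi D ch ζ ζ2 R 0 q z ∂mP) - psi D ch ζ ζ2 R (s + 0) p z) =
        fun z => sF D R 0 (fun p v => pv D ch ζ ζ2 R 0 p v - fG D ch ζ R p v) v z +
          (Qs D.U ch ζ R v z - psi D ch ζ ζ2 R s p z) := by
      funext z
      rw [add_zero]
      have h2 : sF D R 0 (fun p v => pv D ch ζ ζ2 R 0 p v - fG D ch ζ R p v) v z =
          (∫ q in GW 2 R, v q * psi D ch ζ ζ2 R 0 q z ∂mP) - Qs D.U ch ζ R v z := by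
        obtain ⟨f1, -, f3, f4, f5⟩ := hF 0 le_rfl (by linarith)
        have g1 := VAW_int z hvFP (hFpv 0 le_rfl (by linarith)).1
          (fun p hp z => ((hFpv 0 le_rfl (by linarith)).2.1 p hp z).1) hWall
        have hG := hVFR ⊥ univ δ B D K1 (CFM * ζ2) (R ^ (3 / 2 + CFM * ζ2)) R 0
          (fG D ch ζ R) hox2 hD1 hδ n1 (by linarith) hm0' hzero1 hW2 hR1' f3
        have g2 := VAW_int z hvFP hG.1 (fun p hp z => (hG.2.1 p hp z).1) hWall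
        have g3 : sF D R 0 (fun p v => pv D ch ζ ζ2 R 0 p v - fG D ch ζ R p v) v z =
            ∫ q in GW 2 R, (v q * pF D 0 (pv D ch ζ ζ2 R 0) q z - v q * pF D 0 (fG D ch ζ R) q z) ∂mP := by
          unfold sF
          congr 1
          funext q
          unfold pF
          ring
        rw [g3, integral_sub g1 g2]
        unfold Qs
        simp only [f4, f5]
      rw [h2]
      ring
    rw [h1]
    refine (VAW_nnadd MeasurableSet.univ (hFdR.2.2.2.1 v hvFP) (VAW_FHsub (hQs v hvFP) (hψ s).1)).trans ?_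
    have h2 : (33 * R ^ (301 / 400 : ℝ)) ^ 2 = 1089 * R ^ (3 / 2 + 1 / 200 : ℝ) := by
      rw [mul_pow, ← Real.rpow_natCast (R ^ (301 / 400 : ℝ)), ← Real.rpow_mul hRpos.le]
      norm_num
    have h3 : 1 ≤ R ^ (3 / 2 + 1 / 200 : ℝ) := Real.one_le_rpow hR1' (by norm_num)
    rw [h2]
    linarith
  -- conclusion
  have hfin : Real.sqrt (nn univ (fun z => (∫ q in GW 2 R, v q * psi D ch ζ ζ2 R t q z ∂mP) -
      psi D ch ζ ζ2 R (s + t) p z)) ≤ R ^ (4 / 5 : ℝ) := by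
    refine hen.trans ?_
    have h1 : Real.sqrt (nn univ (fun z => (∫ q in GW 2 R, v q * psi D ch ζ ζ2 R 0 q z ∂mP) -
        psi D ch ζ ζ2 R (s + 0) p z)) ≤ 33 * R ^ (301 / 400 : ℝ) := by
      rw [← Real.sqrt_sq (by positivity : 0 ≤ 33 * R ^ (301 / 400 : ℝ))]
      exact Real.sqrt_le_sqrt hw0
    have h2 : t * (5 * Q) ≤ Real.log R * (5 * R ^ (501 / 1000 : ℝ)) := by
      rw [← hQ]
      refine mul_le_mul_of_nonneg_right ?_ (by positivity)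
      nlinarith
    linarith
  have hres : nn univ (fun z => (∫ q in GW 2 R, v q * psi D ch ζ ζ2 R t q z ∂mP) -
      psi D ch ζ ζ2 R (s + t) p z) ≤ R ^ (8 / 5 : ℝ) := by
    have h1 := pow_le_pow_left₀ (Real.sqrt_nonneg _) hfin 2
    rw [Real.sq_sqrt (VAW_nn0 _ _)] at h1
    refine h1.trans (le_of_eq ?_)
    rw [← Real.rpow_natCast, ← Real.rpow_mul hRpos.le]
    norm_num
  rw [hvdef] at hres
  exact hres

end

end Pool.Agent.VQ
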