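import Pool.Agent.helper74.VQ.SpecE
import Pool.Agent.helper44.VQ.VQA

/-!
# Row `VAW` (MP_07c750_an, project VQ), part 1: general lemmas
-/

set_option autoImplicit false

open scoped MatrixGroups ContDiff Topology UpperHalfPlane ComplexConjugate ENNReal
open UpperHalfPlane MeasureTheory Filter Set

namespace Pool.Agent.VQ

open Pool.Agent.RS

noncomputable section

theorem VAW_FHmul {Γ : Subgroup SL(2, ℝ)} {F : Set ℍ} {f : ℍ → ℂ} (hf : FH Γ F f) (c : ℂ) :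
    FH Γ F (fun z => c * f z) := by
  obtain ⟨b, hb⟩ := hf.supp
  refine ⟨continuous_const.mul hf.cont, fun γ z => by rw [hf.inv], ⟨b, fun z hz h => hb z hz fun h0 => h ?_⟩⟩
  rw [h0, mul_zero]

theorem VAW_FHadd {Γ : Subgroup SL(2, ℝ)} {F : Set ℍ} {f g : ℍ → ℂ} (hf : FH Γ F f) (hg : FH Γ F g) :
    FH Γ F (fun z => f z + g z) := by
  obtain ⟨b, hb⟩ := hf.supp
  obtain ⟨b', hb'⟩ := hg.supp
  refine ⟨hf.cont.add hg.cont, fun γ z => by rw [hf.inv, hg.inv], ⟨max b b', fun z hz h => ?_⟩⟩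
  by_cases h0 : f z = 0
  · have h1 : g z ≠ 0 := by
      intro h2
      apply h
      rw [h0, h2, add_zero]
    exact (hb' z hz h1).trans (le_max_right _ _)
  · exact (hb z hz h0).trans (le_max_left _ _)

theorem VAW_FHsub {Γ : Subgroup SL(2, ℝ)} {F : Set ℍ} {f g : ℍ → ℂ} (hf : FH Γ F f) (hg : FH Γ F g) :
    FH Γ F (fun z => f z - g z) := by
  have h := VAW_FHadd hf (VAW_FHmul hg (-1))
  have e : (fun z => f z - g z) = fun z => f z + -1 * g z := by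
    funext z
    ring
  rw [e]
  exact h

theorem VAW_sq {Γ : Subgroup SL(2, ℝ)} {F : Set ℍ} (hF : MeasurableSet F) {f : ℍ → ℂ} (hf : FH Γ F f) :
    IntegrableOn (fun z => ‖f z‖ ^ 2) F := by
  obtain ⟨b, hb⟩ := hf.supp
  apply VQA_int hF (hf.cont.norm.pow 2)
  refine ⟨b, fun z hz h0 => hb z hz fun h3 => h0 ?_⟩
  simp [h3]

theorem VAW_nnadd {Γ : Subgroup SL(2, ℝ)} {F : Set ℍ} (hF : MeasurableSet F) {f g : ℍ → ℂ}
    (hf : FH Γ F f) (hg : FH Γ F g) : nn F (fun z => f z + g z) ≤ 2 * (nn F f + nn F g) := by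
  have h1 := VAW_sq hF hf
  have h2 := VAW_sq hF hg
  have h3 := VAW_sq hF (VAW_FHadd hf hg)
  unfold nn
  rw [← integral_add h1 h2, ← integral_const_mul]
  refine integral_mono h3 ((h1.add h2).const_mul 2) fun z => ?_
  show ‖f z + g z‖ ^ 2 ≤ 2 * (‖f z‖ ^ 2 + ‖g z‖ ^ 2)
  have h4 := norm_add_le (f z) (g z)
  have h5 := norm_nonneg (f z + g z)
  nlinarith [sq_nonneg (‖f z‖ - ‖g z‖)]

theorem VAW_nnmul {F : Set ℍ} (f : ℍ → ℂ) (c : ℂ) (hc : ‖c‖ = 1) : nn F (fun z => c * f z) = nn F f := by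
  unfold nn
  congr 1
  funext z
  rw [norm_mul, hc, one_mul]

theorem VAW_nn0 (F : Set ℍ) (f : ℍ → ℂ) : 0 ≤ nn F f := integral_nonneg fun z => by positivity

theorem VAW_nnsub {Γ : Subgroup SL(2, ℝ)} {F : Set ℍ} (hF : MeasurableSet F) {f g : ℍ → ℂ}
    (hf : FH Γ F f) (hg : FH Γ F g) : nn F (fun z => f z - g z) ≤ 2 * (nn F f + nn F g) := by
  have h := VAW_nnadd hF hf (VAW_FHmul hg (-1))
  rw [VAW_nnmul g (-1) (by simp)] at h
  have e : (fun z => f z - g z) = fun z => f z + -1 * g z := by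
    funext z
    ring
  rw [e]
  exact h

/-- the Laplacian of a difference -/
theorem VAW_lap {f g : ℍ → ℂ} (hf : QU.CD 2 f) (hg : QU.CD 2 g) :
    QU.CD 2 (fun z => f z - g z) ∧ ∀ z, QU.lap (fun z => f z - g z) z = QU.lap f z - QU.lap g z := by
  have e : QU.onC (fun z => f z - g z) = fun w => QU.onC f w - QU.onC g w := rfl
  have hop : IsOpen {w : ℂ | 0 < w.im} := isOpen_lt continuous_const Complex.continuous_im
  refine ⟨?_, fun z => ?_⟩
  · unfold QU.CD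
    rw [e]
    exact ContDiffOn.sub hf hg
  · have hz : (z : ℂ) ∈ {w : ℂ | 0 < w.im} := z.im_pos
    have haf : ∀ w ∈ {w : ℂ | 0 < w.im}, ContDiffAt ℝ 2 (QU.onC f) w := fun w hw =>
      hf.contDiffAt (hop.mem_nhds hw)
    have hag : ∀ w ∈ {w : ℂ | 0 < w.im}, ContDiffAt ℝ 2 (QU.onC g) w := fun w hw =>
      hg.contDiffAt (hop.mem_nhds hw)
    have h1 : fderiv ℝ (QU.onC (fun z => f z - g z)) =ᶠ[𝓝 (z : ℂ)]
        fun w => fderiv ℝ (QU.onC f) w - fderiv ℝ (QU.onC g) w := by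
      filter_upwards [hop.mem_nhds hz] with w hw
      rw [e]
      exact fderiv_fun_sub ((haf w hw).differentiableAt (by norm_num)) ((hag w hw).differentiableAt (by norm_num))
    have hdf : DifferentiableAt ℝ (fderiv ℝ (QU.onC f)) (z : ℂ) :=
      ((haf _ hz).fderiv_right (m := 1) (by norm_num)).differentiableAt (by norm_num)
    have hdg : DifferentiableAt ℝ (fderiv ℝ (QU.onC g)) (z : ℂ) :=
      ((hag _ hz).fderiv_right (m := 1) (by norm_num)).differentiableAt (by norm_num)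
    have h2 : fderiv ℝ (fderiv ℝ (QU.onC (fun z => f z - g z))) (z : ℂ) =
        fderiv ℝ (fderiv ℝ (QU.onC f)) (z : ℂ) - fderiv ℝ (fderiv ℝ (QU.onC g)) (z : ℂ) := by
      rw [h1.fderiv_eq]
      exact fderiv_fun_sub hdf hdg
    unfold QU.lap
    rw [h2]
    simp only [sub_apply, smul_add, smul_sub]
    ring

theorem VAW_Hop {f g : ℍ → ℂ} (hf : QU.CD 2 f) (hg : QU.CD 2 g) (U : ℍ → ℝ) (R : ℝ) (z : ℍ) :
    Hop U R (fun z => f z - g z) z = Hop U R f z - Hop U R g z := by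
  unfold Hop
  rw [(VAW_lap hf hg).2 z]
  ring

/-- integrability on the window -/
theorem VAW_int {R m t : ℝ} {D : Dyn} {f : SL(2, ℝ) × ℝ → ℂ → ℂ} {v : SL(2, ℝ) × ℝ → ℂ} (z : ℍ)
    (hv : FP ⊥ univ v)
    (hc : ContinuousOn (fun x : (SL(2, ℝ) × ℝ) × ℍ => pF D t f x.1 x.2) {x | |x.1.2| ≤ 1 / 8})
    (hb : ∀ p ∈ GW 2 R, ∀ z, ‖pF D t f p z‖ ≤ m) (hW : ∀ p ∈ GW 2 R, |p.2| ≤ 1 / 8) :
    IntegrableOn (fun q => v q * pF D t f q z) (GW 2 R) mP := by
  obtain ⟨b, hb1⟩ := hv.bdd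
  obtain ⟨b', hb'⟩ := hv.supp
  have hGW : MeasurableSet (GW 2 R) := MeasurableSet.univ.prod measurableSet_Icc
  set S : Set (SL(2, ℝ) × ℝ) := dG (Metric.closedBall I b') ×ˢ Wi 2 R with hS
  have hSm : MeasurableSet S :=
    (RS.A_GMG.1 _ Metric.isClosed_closedBall.measurableSet).1.prod measurableSet_Icc
  have hSW : S ⊆ GW 2 R := fun p hp => ⟨mem_univ _, hp.2⟩
  have hSf : mP S ≠ ⊤ := by
    rw [hS, mP, Measure.prod_prod, (RS.A_GMG.1 _ Metric.isClosed_closedBall.measurableSet).2]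
    refine ENNReal.mul_ne_top (isCompact_closedBall _ _).measure_lt_top.ne ?_
    rw [Wi, Real.volume_Icc]
    exact ENNReal.ofReal_ne_top
  have hcz : ContinuousOn (fun q : SL(2, ℝ) × ℝ => pF D t f q z) (GW 2 R) := by
    have h1 : ContinuousOn (fun q : SL(2, ℝ) × ℝ => ((q, z) : (SL(2, ℝ) × ℝ) × ℍ)) (GW 2 R) :=
      (continuous_id.prodMk continuous_const).continuousOn
    exact hc.comp h1 fun q hq => hW q hq
  have hmeas : AEStronglyMeasurable (fun q => v q * pF D t f q z) (mP.restrict S) :=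
    (hv.meas.aestronglyMeasurable).mul ((hcz.mono hSW).aestronglyMeasurable hSm)
  have h1 : IntegrableOn (fun q => v q * pF D t f q z) S mP := by
    refine ⟨hmeas, HasFiniteIntegral.restrict_of_bounded (C := b * m) (lt_top_iff_ne_top.2 hSf) ?_⟩
    refine (ae_restrict_iff' hSm).2 (Eventually.of_forall fun p hp => ?_)
    rw [norm_mul]
    exact mul_le_mul (hb1 p) (hb p (hSW hp) z) (norm_nonneg _) ((norm_nonneg _).trans (hb1 p))
  refine h1.of_forall_sdiff_eq_zero hGW fun p hp => ?_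
  by_contra h0
  apply hp.2
  have h2 : v p ≠ 0 := by
    intro h3
    apply h0
    rw [h3, zero_mul]
  exact ⟨hb' p (mem_univ _) h2, hp.1.2⟩

/-- the numbers -/
theorem VAW_num (R : ℝ) (hR : (83 : ℝ) ^ 40 ≤ R) :
    33 * R ^ (301 / 400 : ℝ) + Real.log R * (5 * R ^ (501 / 1000 : ℝ)) ≤ R ^ (4 / 5 : ℝ) ∧
    R ^ (-(1 / 4) : ℝ) ≤ 1 / 1000 := by
  have h83 : (1 : ℝ) ≤ (83 : ℝ) ^ 40 := one_le_pow₀ (by norm_num)
  have hR1 : 1 ≤ R := h83.trans hR
  have hR0 : 0 < R := by linarith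
  have k1 : (83 : ℝ) ≤ R ^ (1 / 40 : ℝ) := by
    have h1 : ((83 : ℝ) ^ 40) ^ (1 / 40 : ℝ) ≤ R ^ (1 / 40 : ℝ) :=
      Real.rpow_le_rpow (by positivity) hR (by norm_num)
    have h2 : ((83 : ℝ) ^ 40) ^ (1 / 40 : ℝ) = 83 := by
      rw [← Real.rpow_natCast, ← Real.rpow_mul (by norm_num)]
      norm_num
    linarith
  constructor
  · have h1 : Real.log R ≤ R ^ (1 / 10 : ℝ) / (1 / 10) := Real.log_le_rpow_div hR0.le (by norm_num)
    have h2 : Real.log R * (5 * R ^ (501 / 1000 : ℝ)) ≤ 50 * R ^ (301 / 400 : ℝ) := by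
      calc Real.log R * (5 * R ^ (501 / 1000 : ℝ)) ≤ (R ^ (1 / 10 : ℝ) / (1 / 10)) * (5 * R ^ (501 / 1000 : ℝ)) :=
            mul_le_mul_of_nonneg_right h1 (by positivity)
        _ = 50 * (R ^ (1 / 10 : ℝ) * R ^ (501 / 1000 : ℝ)) := by ring
        _ = 50 * R ^ (1 / 10 + 501 / 1000 : ℝ) := by rw [← Real.rpow_add hR0]
        _ ≤ 50 * R ^ (301 / 400 : ℝ) := by
            refine mul_le_mul_of_nonneg_left ?_ (by norm_num)
            exact Real.rpow_le_rpow_of_exponent_le hR1 (by norm_num)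
    have h3 : 83 * R ^ (301 / 400 : ℝ) ≤ R ^ (4 / 5 : ℝ) := by
      calc 83 * R ^ (301 / 400 : ℝ) ≤ R ^ (1 / 40 : ℝ) * R ^ (301 / 400 : ℝ) :=
            mul_le_mul_of_nonneg_right k1 (by positivity)
        _ = R ^ (1 / 40 + 301 / 400 : ℝ) := by rw [← Real.rpow_add hR0]
        _ ≤ R ^ (4 / 5 : ℝ) := Real.rpow_le_rpow_of_exponent_le hR1 (by norm_num)
    linarith
  · rw [Real.rpow_neg hR0.le, ← one_div]
    apply one_div_le_one_div_of_le (by norm_num)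
    have h1 : R ^ (1 / 4 : ℝ) = (R ^ (1 / 40 : ℝ)) ^ 10 := by
      rw [← Real.rpow_natCast, ← Real.rpow_mul hR0.le]
      norm_num
    rw [h1]
    calc (1000 : ℝ) ≤ 83 ^ 10 := by norm_num
      _ ≤ (R ^ (1 / 40 : ℝ)) ^ 10 := pow_le_pow_left₀ (by norm_num) k1 10

end

end Pool.Agent.VQ
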